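import Pool.Agent.Y601.QP.Three
import Pool.Agent.Y601.QP.One

set_option autoImplicit false

/-!
# MP_09e03f_lc: three quadratic inequalities have projections without short descriptions

`QF m` (file `Pool/Agent/H694R2/QuadQF.lean`) is the type of quantifier-free formulas in
`Y_1, …, Y_m`: finite Boolean combinations of sign conditions `Q > 0`, `Q = 0`, `Q < 0` with
`Q` a real polynomial; `QF.Holds` is the evident semantics, `QF.polys` the list of the
polynomials that occur, `QF.size` the total number of their nonzero coefficients.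
-/

namespace Pool.Agent.Results.MP_09e03f_lc.ThreeInequalities

open MvPolynomial Pool.Agent.H694R2.Quad Pool.Agent.Y601.QP

/-- The set defined by `P_1 ≥ 0, …, P_ℓ ≥ 0`. -/
def basicSet {ι : Type} {ℓ : ℕ} (P : Fin ℓ → MvPolynomial ι ℝ) : Set (ι → ℝ) :=
  {p | ∀ i, 0 ≤ eval p (P i)}

/-- The projection to the last `m` coordinates. -/
def proj {k m : ℕ} (S : Set (Fin k ⊕ Fin m → ℝ)) : Set (Fin m → ℝ) :=
  {y | ∃ x : Fin k → ℝ, Sum.elim x y ∈ S}

/-- `φ` is a semi-algebraic description of the set `T`. -/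
def Describes {m : ℕ} (φ : QF m) (T : Set (Fin m → ℝ)) : Prop := ∀ y, φ.Holds y ↔ y ∈ T

theorem card_Xi (r : ℕ) : Fintype.card (Xi (3 * r)) = 9 * r ^ 2 + 3 * r + 1 := by
  simp only [Xi, Fintype.card_option, Fintype.card_prod, Fintype.card_fin]
  ring

/-- renumbering of the variables -/
noncomputable def ren (r : ℕ) :
    Xi (3 * r) ⊕ Fin (3 * r) → Fin (9 * r ^ 2 + 3 * r + 1) ⊕ Fin (3 * r) :=
  Sum.map (Fintype.equivFinOfCardEq (card_Xi r)) id

/-- the system of `ℓ` inequalities -/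
noncomputable def sys (ℓ r : ℕ) (i : Fin ℓ) :
    MvPolynomial (Fin (9 * r ^ 2 + 3 * r + 1) ⊕ Fin (3 * r)) ℝ :=
  rename (ren r) (PT ⟨min i 2, by omega⟩)

theorem deg_sys (ℓ r : ℕ) (i : Fin ℓ) : (sys ℓ r i).totalDegree ≤ 2 :=
  (totalDegree_rename_le _ _).trans (deg_PT _)

theorem mem_sys {ℓ r : ℕ} (hℓ : 3 ≤ ℓ)
    (p : Fin (9 * r ^ 2 + 3 * r + 1) ⊕ Fin (3 * r) → ℝ) :
    p ∈ basicSet (sys ℓ r) ↔ p ∘ ren r ∈ Pool.Agent.Y601.QP.ST (3 * r) := by
  simp only [basicSet, Pool.Agent.Y601.QP.ST, sys, Set.mem_ofPred_eq, eval_rename]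
  constructor
  · intro h i
    have := h ⟨i, by omega⟩
    convert this using 3
    apply Fin.ext
    simp only
    omega
  · intro h i
    exact h _

theorem compact_sys {ℓ r : ℕ} (hℓ : 3 ≤ ℓ) : IsCompact (basicSet (sys ℓ r)) := by
  have hcl : IsClosed (basicSet (sys ℓ r)) := by
    have : basicSet (sys ℓ r) = ⋂ i, {p | 0 ≤ eval p (sys ℓ r i)} := by
      ext p; simp [basicSet]
    rw [this]
    apply isClosed_iInter
    intro i
    exact isClosed_le continuous_const (MvPolynomial.continuous_eval _)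
  apply IsCompact.of_isClosed_subset (isCompact_Icc (a := fun _ => -(r0 (3 * r) + 1))
    (b := fun _ => r0 (3 * r) + 1)) hcl
  intro p hp
  have h1 := (mem_sys hℓ p).1 hp
  have h2 : ∀ a, |p a| ≤ r0 (3 * r) + 1 := by
    intro a
    rcases a with a | i
    · have := ST_bound h1 (Sum.inl ((Fintype.equivFinOfCardEq (card_Xi r)).symm a))
      simpa [ren] using this
    · have := ST_bound h1 (Sum.inr i)
      simpa [ren] using this
  rw [Set.mem_Icc, Pi.le_def, Pi.le_def]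
  exact ⟨fun a => (abs_le.1 (h2 a)).1, fun a => (abs_le.1 (h2 a)).2⟩

theorem proj_sys {ℓ r : ℕ} (hℓ : 3 ≤ ℓ) (y : Fin (3 * r) → ℝ) :
    y ∈ proj (basicSet (sys ℓ r)) ↔ y ∈ projT (3 * r) := by
  constructor
  · rintro ⟨x, hx⟩
    have h1 := (mem_sys hℓ _).1 hx
    refine ⟨x ∘ Fintype.equivFinOfCardEq (card_Xi r), ?_⟩
    convert h1 using 1
    funext a
    rcases a with a | a <;> rfl
  · rintro ⟨x, hx⟩
    refine ⟨x ∘ (Fintype.equivFinOfCardEq (card_Xi r)).symm, (mem_sys hℓ _).2 ?_⟩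
    convert hx using 1
    funext a
    rcases a with a | a
    · simp [ren]
    · rfl

theorem one_ineq (k m : ℕ) (P : Fin 1 → MvPolynomial (Fin k ⊕ Fin m) ℝ)
    (hd : ∀ i, (P i).totalDegree ≤ 2) (hc : IsCompact (basicSet P)) :
    ∃ Q : MvPolynomial (Fin m) ℝ, Q.totalDegree ≤ 2 ∧
      proj (basicSet P) = {y | 0 ≤ eval y Q} := by
  have hmem : ∀ p, p ∈ basicSet P ↔ 0 ≤ eval p (P 0) := by
    intro p
    constructor
    · intro h
      exact h 0
    · intro h i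
      rw [Subsingleton.elim i 0]
      exact h
  obtain ⟨R, hR⟩ := isBounded_iff_forall_norm_le.1 hc.isBounded
  obtain ⟨Q, hQ, hQ'⟩ := elim_many m k (P 0) (hd 0) ⟨R, fun p hp a =>
    (norm_le_pi_norm p a).trans (hR p ((hmem p).2 hp))⟩
  refine ⟨Q, hQ, ?_⟩
  ext y
  rw [Set.mem_ofPred_eq, ← hQ' y]
  constructor
  · rintro ⟨x, hx⟩
    exact ⟨x, (hmem _).1 hx⟩
  · rintro ⟨x, hx⟩
    exact ⟨x, (hmem _).2 hx⟩

theorem three_ineq (ℓ : ℕ) (hℓ : 3 ≤ ℓ) (r : ℕ) (hr : 1 ≤ r) :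
    ∃ P : Fin ℓ → MvPolynomial (Fin (9 * r ^ 2 + 3 * r + 1) ⊕ Fin (3 * r)) ℝ,
      (∀ i, (P i).totalDegree ≤ 2) ∧ IsCompact (basicSet P) ∧
      ∀ φ : QF (3 * r), Describes φ (proj (basicSet P)) →
        ∃ Q ∈ φ.polys, 2 ^ r ≤ Q.support.card :=
  ⟨sys ℓ r, deg_sys ℓ r, compact_sys hℓ, fun φ hφ =>
    exp_lower3 hr φ fun y => (hφ y).trans (proj_sys hℓ y)⟩

theorem growth (C D : ℕ) : ∃ r : ℕ, 1 ≤ r ∧ C * ((9 * r ^ 2 + 3 * r + 1) + 3 * r) ^ D < 2 ^ r := by
  have h1 := tendsto_pow_const_div_const_pow_of_one_lt (2 * D) (r := (2 : ℝ)) one_lt_two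
  have hpos : (0 : ℝ) < 1 / (C * 16 ^ D + 1) := by positivity
  have h2 := (h1.eventually_lt_const hpos).and (Filter.eventually_ge_atTop 1)
  obtain ⟨r, hr, hr1⟩ := h2.exists
  refine ⟨r, hr1, ?_⟩
  have h3 : (9 * r ^ 2 + 3 * r + 1) + 3 * r ≤ 16 * r ^ 2 + 3 * 0 := by nlinarith
  have h4 : C * ((9 * r ^ 2 + 3 * r + 1) + 3 * r) ^ D ≤ C * (16 * r ^ 2) ^ D :=
    Nat.mul_le_mul_left _ (Nat.pow_le_pow_left (by omega) _)
  refine lt_of_le_of_lt h4 ?_
  rw [div_lt_div_iff₀ (by positivity) (by positivity)] at hr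
  have h5 : ((C * (16 * r ^ 2) ^ D : ℕ) : ℝ) < ((2 ^ r : ℕ) : ℝ) := by
    push_cast
    rw [mul_pow, ← pow_mul]
    have h6 : (0 : ℝ) ≤ (r : ℝ) ^ (2 * D) := by positivity
    nlinarith
  exact_mod_cast h5

/-- (1) If a single polynomial of degree at most `2` in `k + m` variables defines a compact set,
then the projection to `ℝ ^ m` is defined by one inequality `Q ≥ 0`, with `Q` of degree at most
`2`.

(2) For every `ℓ ≥ 3` and `r ≥ 1`, with `k = 9 r ^ 2 + 3 r + 1` and `m = 3 r`, there are `ℓ`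
polynomials of degree at most `2` in `k + m = (3 r + 1) ^ 2` variables that define a compact set
such that every semi-algebraic description of its projection to `ℝ ^ m` contains a polynomial
with at least `2 ^ r` nonzero coefficients.

(3) For every `ℓ ≥ 3` no map (computable or not) takes all systems of `ℓ` polynomials of degree at
most `2` in `k + m` variables that define compact sets to descriptions of the projections with at
most `C (k + m) ^ D` nonzero coefficients, for any constants `C` and `D`. -/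
theorem result :
    (∀ (k m : ℕ) (P : Fin 1 → MvPolynomial (Fin k ⊕ Fin m) ℝ), (∀ i, (P i).totalDegree ≤ 2) →
      IsCompact (basicSet P) → ∃ Q : MvPolynomial (Fin m) ℝ, Q.totalDegree ≤ 2 ∧
        proj (basicSet P) = {y | 0 ≤ eval y Q}) ∧
    (∀ ℓ : ℕ, 3 ≤ ℓ → ∀ r : ℕ, 1 ≤ r →
      ∃ P : Fin ℓ → MvPolynomial (Fin (9 * r ^ 2 + 3 * r + 1) ⊕ Fin (3 * r)) ℝ,
        (∀ i, (P i).totalDegree ≤ 2) ∧ IsCompact (basicSet P) ∧
        ∀ φ : QF (3 * r), Describes φ (proj (basicSet P)) →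
          ∃ Q ∈ φ.polys, 2 ^ r ≤ Q.support.card) ∧
    (∀ ℓ : ℕ, 3 ≤ ℓ →
      ¬ ∃ (alg : (k m : ℕ) → (Fin ℓ → MvPolynomial (Fin k ⊕ Fin m) ℝ) → QF m) (C D : ℕ),
        ∀ (k m : ℕ), 1 ≤ k → 1 ≤ m → ∀ P : Fin ℓ → MvPolynomial (Fin k ⊕ Fin m) ℝ,
          (∀ i, (P i).totalDegree ≤ 2) → IsCompact (basicSet P) →
            Describes (alg k m P) (proj (basicSet P)) ∧
              (alg k m P).size ≤ C * (k + m) ^ D) := by
  refine ⟨one_ineq, three_ineq, ?_⟩
  rintro ℓ hℓ ⟨alg, C, D, h⟩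
  obtain ⟨r, hr, hgr⟩ := growth C D
  obtain ⟨P, hd, hc, hP⟩ := three_ineq ℓ hℓ r hr
  obtain ⟨h1, h2⟩ := h _ _ (by omega) (by omega) P hd hc
  obtain ⟨Q, hQ, hcard⟩ := hP _ h1
  have h3 := QF.card_le_size hQ
  omega

end Pool.Agent.Results.MP_09e03f_lc.ThreeInequalities
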